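import Pool.Agent.Helper7.Proj.Packets

/-!
# Packet D of MP_705522_gt: a Fourier formula for `J`
-/

namespace Pool.Agent.Helper13.Proj

open MeasureTheory Set Pool.Agent.Helper7.Proj

/-- The integrand `(1 - cos t)/t²`. -/
noncomputable def ker (t : ℝ) : ℝ := (1 - Real.cos t) / t ^ 2

lemma ker_nonneg (t : ℝ) : 0 ≤ ker t :=
  div_nonneg (by linarith [Real.cos_le_one t]) (sq_nonneg t)

lemma measurable_ker : Measurable ker := by
  unfold ker
  fun_prop

lemma ker_le_half (t : ℝ) : ker t ≤ 1 / 2 := by
  unfold ker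
  rcases eq_or_ne t 0 with h | h
  · subst h; norm_num
  · have h2 : 0 < t ^ 2 := by positivity
    rw [div_le_iff₀ h2]
    have := Real.one_sub_sq_div_two_le_cos (x := t)
    linarith

lemma integrableOn_ker : IntegrableOn ker (Ioi 0) := by
  rw [← Ioc_union_Ioi_eq_Ioi (zero_le_one (α := ℝ))]
  refine IntegrableOn.union ?_ ?_
  · have hc : IntegrableOn (fun _ : ℝ => (1 / 2 : ℝ)) (Ioc 0 1) := by
      rw [integrableOn_const_iff]
      right
      simp
    refine Integrable.mono' hc measurable_ker.aestronglyMeasurable ?_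
    refine Filter.Eventually.of_forall fun t => ?_
    rw [Real.norm_of_nonneg (ker_nonneg t)]
    exact ker_le_half t
  · have h2 : IntegrableOn (fun t : ℝ => 2 * t ^ (-2 : ℝ)) (Ioi 1) :=
      (integrableOn_Ioi_rpow_of_lt (by norm_num) zero_lt_one).const_mul 2
    refine Integrable.mono' h2 measurable_ker.aestronglyMeasurable ?_
    refine (ae_restrict_iff' measurableSet_Ioi).2 (Filter.Eventually.of_forall fun t ht => ?_)
    have ht0 : (0 : ℝ) < t := lt_trans zero_lt_one ht
    rw [Real.norm_of_nonneg (ker_nonneg t), Real.rpow_neg ht0.le, ker, div_eq_mul_inv]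
    have : t ^ (2 : ℝ) = t ^ (2 : ℕ) := by
      rw [← Real.rpow_natCast]; norm_num
    rw [this]
    refine mul_le_mul_of_nonneg_right ?_ (by positivity)
    linarith [Real.neg_one_le_cos t]

/-- The constant `∫ (1 - cos t)/t² dt`. -/
noncomputable def c0 : ℝ := ∫ t in Ioi (0 : ℝ), ker t

lemma c0_pos : 0 < c0 := by
  unfold c0
  rw [integral_pos_iff_support_of_nonneg (fun t => ker_nonneg t) integrableOn_ker]
  have hsub : Ioo (0 : ℝ) 1 ⊆ Function.support ker ∩ Ioi 0 := by
    intro t ht
    refine ⟨?_, ht.1⟩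
    rw [Function.mem_support, ker]
    have h1 : Real.cos t < 1 := by
      have h := Real.cos_lt_cos_of_nonneg_of_le_pi (x := 0) (y := t) le_rfl
        (by linarith [Real.pi_gt_three, ht.2]) ht.1
      rwa [Real.cos_zero] at h
    have h2 : 0 < t ^ 2 := by have := ht.1; positivity
    exact (div_pos (by linarith) h2).ne'
  rw [Measure.restrict_apply' measurableSet_Ioi]
  refine lt_of_lt_of_le ?_ (measure_mono hsub)
  simp

lemma integrableOn_scaled (s : ℝ) :
    IntegrableOn (fun t => (1 - Real.cos (t * s)) / t ^ 2) (Ioi 0) := by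
  wlog hs : 0 < s generalizing s
  · rcases (not_lt.1 hs).lt_or_eq with h | h
    · have := this (-s) (by linarith)
      refine this.congr_fun (fun t _ => ?_) measurableSet_Ioi
      simp only [mul_neg, Real.cos_neg]
    · subst h
      simp
  have h := (integrableOn_Ioi_comp_mul_left_iff ker 0 hs).2 (by simpa using integrableOn_ker)
  refine IntegrableOn.congr_fun (h.const_mul (s ^ 2)) (fun t ht => ?_) measurableSet_Ioi
  have ht' : (t : ℝ) ≠ 0 := (mem_Ioi.1 ht).ne'
  simp only [ker]
  rw [mul_comm s t]
  field_simp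

lemma integral_scaled (s : ℝ) :
    ∫ t in Ioi (0 : ℝ), (1 - Real.cos (t * s)) / t ^ 2 = c0 * |s| := by
  wlog hs : 0 < s generalizing s
  · rcases (not_lt.1 hs).lt_or_eq with h | h
    · have := this (-s) (by linarith)
      simp only [mul_neg, Real.cos_neg, abs_neg] at this
      exact this
    · subst h
      simp
  have h := integral_comp_mul_left_Ioi ker 0 hs
  rw [mul_zero] at h
  have h2 : ∫ t in Ioi (0 : ℝ), (1 - Real.cos (t * s)) / t ^ 2 =
      ∫ t in Ioi (0 : ℝ), s ^ 2 * ker (s * t) := by
    refine setIntegral_congr_fun measurableSet_Ioi (fun t ht => ?_)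
    have ht' : (t : ℝ) ≠ 0 := (mem_Ioi.1 ht).ne'
    simp only [ker]
    rw [mul_comm s t]
    field_simp
  rw [h2, integral_const_mul, h, abs_of_pos hs, c0, smul_eq_mul]
  field_simp

section
variable {p : ℝ}

lemma sg_abs_le (p y : ℝ) : |sg p y| ≤ |y| ^ (p - 1) := by
  unfold sg
  rw [abs_mul, abs_of_nonneg (Real.rpow_nonneg (abs_nonneg y) _)]
  have h : |Real.sign y| ≤ 1 := by
    rcases lt_trichotomy y 0 with h | h | h
    · rw [Real.sign_of_neg h]; norm_num
    · subst h; simp
    · rw [Real.sign_of_pos h]; norm_num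
  calc |Real.sign y| * |y| ^ (p - 1) ≤ 1 * |y| ^ (p - 1) :=
        mul_le_mul_of_nonneg_right h (Real.rpow_nonneg (abs_nonneg y) _)
    _ = _ := one_mul _

lemma measurable_sign : Measurable Real.sign := by
  unfold Real.sign
  refine Measurable.ite (measurableSet_lt measurable_id measurable_const) measurable_const ?_
  exact Measurable.ite (measurableSet_lt measurable_const measurable_id) measurable_const
    measurable_const

lemma measurable_sg (p : ℝ) : Measurable (sg p) := by
  unfold sg
  exact measurable_sign.mul (measurable_norm.pow_const _)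

lemma sg_neg (p y : ℝ) : sg p (-y) = -sg p y := by
  unfold sg
  rw [Real.sign_neg, abs_neg]; ring

/-- One variable weight. -/
noncomputable def w (p y : ℝ) : ℝ := Real.exp (-|y| ^ p)

lemma w_pos (p y : ℝ) : 0 < w p y := Real.exp_pos _

lemma measurable_w (p : ℝ) : Measurable (w p) := by
  unfold w
  exact Real.measurable_exp.comp ((measurable_norm.pow_const _).neg)

lemma integrable_comp_abs {f : ℝ → ℝ} (hf : IntegrableOn f (Ioi 0)) :
    Integrable (fun y : ℝ => f |y|) := by
  have h1 : IntegrableOn (fun y : ℝ => f |y|) (Ioi 0) := by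
    refine hf.congr_fun (fun y hy => ?_) measurableSet_Ioi
    simp only [abs_of_pos (mem_Ioi.1 hy)]
  have h2 : IntegrableOn (fun y : ℝ => f |y|) (Iic 0) := by
    rw [← Measure.map_neg_eq_self (volume : Measure ℝ)]
    let m : MeasurableEmbedding fun x : ℝ => -x := (Homeomorph.neg ℝ).measurableEmbedding
    rw [m.integrableOn_map_iff]
    simp_rw [Function.comp_def, abs_neg, neg_preimage, neg_Iic, neg_zero]
    exact Iff.mpr integrableOn_Ici_iff_integrableOn_Ioi h1
  rw [← integrableOn_univ, ← Iic_union_Ioi (a := (0 : ℝ))]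
  exact h2.union h1

lemma integrable_abs_rpow_mul_w (hp : 0 < p) {s : ℝ} (hs : -1 < s) :
    Integrable (fun y : ℝ => |y| ^ s * w p y) :=
  integrable_comp_abs (f := fun y : ℝ => y ^ s * Real.exp (-y ^ p))
    (integrableOn_rpow_mul_exp_neg_rpow hs hp)

lemma integrable_w (hp : 0 < p) : Integrable (w p) := by
  have h := integrable_abs_rpow_mul_w hp (s := 0) (by norm_num)
  simpa using h

/-- cosine transform of the distribution of `sg p y`. -/
noncomputable def A (p s : ℝ) : ℝ := ∫ y : ℝ, Real.cos (s * sg p y) * w p y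

lemma A_eq (hp : 1 < p) (s : ℝ) :
    A p s = 2 * (p / (p - 1) - 1) *
      ∫ x in Ioi (0 : ℝ), Real.cos (s * x) * (x ^ (p / (p - 1) - 2) *
        Real.exp (-x ^ (p / (p - 1)))) := by
  have hp1 : 0 < p - 1 := by linarith
  have h1 : A p s = ∫ y : ℝ, (fun y : ℝ => Real.cos (s * y ^ (p - 1)) * Real.exp (-y ^ p)) |y| := by
    unfold A
    refine integral_congr_ae (Filter.Eventually.of_forall fun y => ?_)
    simp only [w, sg]
    congr 1
    rcases lt_trichotomy y 0 with h | h | h
    · rw [Real.sign_of_neg h]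
      rw [neg_one_mul, mul_neg, Real.cos_neg]
    · subst h
      simp [Real.zero_rpow hp1.ne']
    · rw [Real.sign_of_pos h, one_mul]
  rw [h1, integral_comp_abs (f := fun y : ℝ => Real.cos (s * y ^ (p - 1)) * Real.exp (-y ^ p))]
  have hq : (0 : ℝ) < p / (p - 1) - 1 := by
    rw [div_sub_one hp1.ne']
    have : p - (p - 1) = 1 := by ring
    rw [this]; positivity
  rw [← integral_comp_rpow_Ioi_of_pos (g := fun y : ℝ => Real.cos (s * y ^ (p - 1)) *
    Real.exp (-y ^ p)) hq, mul_assoc]
  refine congrArg (fun z : ℝ => 2 * z) ?_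
  rw [← integral_const_mul]
  refine setIntegral_congr_fun measurableSet_Ioi (fun x hx => ?_)
  have hx0 : (0 : ℝ) < x := hx
  simp only [smul_eq_mul]
  rw [← Real.rpow_mul hx0.le, ← Real.rpow_mul hx0.le]
  have e1 : (p / (p - 1) - 1) * (p - 1) = 1 := by field_simp; ring
  have e2 : (p / (p - 1) - 1) * p = p / (p - 1) := by field_simp; ring
  rw [e1, e2, Real.rpow_one, show p / (p - 1) - 1 - 1 = p / (p - 1) - 2 by ring]
  ring

lemma A_zero_pos (hp : 1 < p) : 0 < A p 0 := by
  have h : A p 0 = ∫ y : ℝ, w p y := by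
    unfold A; simp
  rw [h, integral_pos_iff_support_of_nonneg (fun y => (w_pos p y).le)
    (integrable_w (by linarith))]
  have : Function.support (w p) = univ := by
    ext y; simp [(w_pos p y).ne']
  rw [this]; simp

lemma A_eq_phi (hp : 1 < p) (s : ℝ) : A p s = A p 0 * phi (p / (p - 1)) s := by
  have h0 := A_zero_pos hp
  have e0 := A_eq hp 0
  rw [e0] at h0
  have e0' : A p 0 = 2 * (p / (p - 1) - 1) * ∫ x in Ioi (0 : ℝ), x ^ (p / (p - 1) - 2) *
        Real.exp (-x ^ (p / (p - 1))) := by
    rw [e0]; simp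
  have hne : (∫ x in Ioi (0 : ℝ), x ^ (p / (p - 1) - 2) *
        Real.exp (-x ^ (p / (p - 1)))) ≠ 0 := by
    intro hz
    simp [hz] at h0
  rw [A_eq hp s, e0', phi]
  field_simp

lemma abs_cos_mul_w_le (s y : ℝ) : ‖Real.cos (s * sg p y) * w p y‖ ≤ w p y := by
  rw [norm_mul, Real.norm_of_nonneg (w_pos p y).le]
  have := Real.abs_cos_le_one (s * sg p y)
  calc _ ≤ 1 * w p y := mul_le_mul_of_nonneg_right this (w_pos p y).le
    _ = _ := one_mul _

lemma char_one (hp : 1 < p) (s : ℝ) :
    ∫ y : ℝ, Complex.exp (Complex.I * ((s * sg p y : ℝ) : ℂ)) * ((w p y : ℝ) : ℂ) =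
      ((A p s : ℝ) : ℂ) := by
  have hi : Integrable (fun y : ℝ =>
      Complex.exp (Complex.I * ((s * sg p y : ℝ) : ℂ)) * ((w p y : ℝ) : ℂ)) := by
    refine Integrable.mono' (integrable_w (p := p) (by linarith)) ?_ ?_
    · refine Measurable.aestronglyMeasurable ?_
      refine Measurable.mul ?_ ?_
      · exact Complex.measurable_exp.comp
          ((Complex.measurable_ofReal.comp ((measurable_sg p).const_mul s)).const_mul _)
      · exact Complex.measurable_ofReal.comp (measurable_w p)
    · refine Filter.Eventually.of_forall fun y => ?_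
      rw [norm_mul, mul_comm Complex.I, Complex.norm_exp_ofReal_mul_I, one_mul,
        Complex.norm_real, Real.norm_of_nonneg (w_pos p y).le]
  apply Complex.ext
  · rw [Complex.ofReal_re, A]
    have := integral_re hi (𝕜 := ℂ)
    simp only [RCLike.re_to_complex] at this
    rw [← this]
    refine integral_congr_ae (Filter.Eventually.of_forall fun y => ?_)
    simp only
    rw [mul_comm Complex.I, Complex.re_mul_ofReal, Complex.exp_ofReal_mul_I_re]
  · rw [Complex.ofReal_im]
    have := integral_im hi (𝕜 := ℂ)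
    simp only [RCLike.im_to_complex] at this
    rw [← this]
    have h2 : ∀ y : ℝ, (Complex.exp (Complex.I * ((s * sg p y : ℝ) : ℂ)) *
        ((w p y : ℝ) : ℂ)).im = Real.sin (s * sg p y) * w p y := by
      intro y
      rw [mul_comm Complex.I, Complex.im_mul_ofReal, Complex.exp_ofReal_mul_I_im]
    simp_rw [h2]
    have h3 : ∫ y : ℝ, Real.sin (s * sg p y) * w p y =
        - ∫ y : ℝ, Real.sin (s * sg p y) * w p y := by
      conv_lhs => rw [← integral_neg_eq_self]
      rw [← integral_neg]
      refine integral_congr_ae (Filter.Eventually.of_forall fun y => ?_)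
      simp only
      rw [sg_neg, mul_neg, Real.sin_neg, w, w, abs_neg, neg_mul]
    linarith

/-- the weight on `ℝⁿ`. -/
noncomputable def W (p : ℝ) {n : ℕ} (x : Fin n → ℝ) : ℝ := Real.exp (-∑ i, |x i| ^ p)

lemma W_eq (p : ℝ) {n : ℕ} (x : Fin n → ℝ) : W p x = ∏ i, w p (x i) := by
  unfold W w
  rw [← Real.exp_sum, Finset.sum_neg_distrib]

lemma W_pos (p : ℝ) {n : ℕ} (x : Fin n → ℝ) : 0 < W p x := Real.exp_pos _

lemma integrable_W (hp : 1 < p) (n : ℕ) : Integrable (fun x : Fin n → ℝ => W p x) := by
  simp_rw [W_eq]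
  exact Integrable.fintype_prod (fun _ => integrable_w (by linarith))

lemma integral_W (p : ℝ) (n : ℕ) : ∫ x : Fin n → ℝ, W p x = A p 0 ^ n := by
  simp_rw [W_eq]
  rw [integral_fintype_prod_volume_eq_pow (𝕜 := ℝ)]
  simp [A]

/-- the linear form in the signed powers. -/
noncomputable def S (p : ℝ) {n : ℕ} (u : Fin n → ℝ) (x : Fin n → ℝ) : ℝ := ∑ i, u i * sg p (x i)

lemma measurable_S (p : ℝ) {n : ℕ} (u : Fin n → ℝ) : Measurable (S p u) := by
  unfold S
  refine Finset.measurable_sum _ (fun i _ => ?_)
  exact ((measurable_sg p).comp (measurable_pi_apply i)).const_mul _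

lemma measurable_W (p : ℝ) (n : ℕ) : Measurable (fun x : Fin n → ℝ => W p x) := by
  simp_rw [W_eq]
  exact Finset.measurable_prod _ (fun i _ => (measurable_w p).comp (measurable_pi_apply i))

lemma integrable_sg_W (hp : 1 < p) {n : ℕ} (i : Fin n) :
    Integrable (fun x : Fin n → ℝ => |sg p (x i)| * W p x) := by
  have h : ∀ x : Fin n → ℝ, |sg p (x i)| * W p x =
      ∏ j, (fun y => if j = i then |sg p y| * w p y else w p y) (x j) := by
    intro x
    rw [W_eq]
    simp only
    rw [← Finset.mul_prod_erase Finset.univ _ (Finset.mem_univ i),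
      ← Finset.mul_prod_erase Finset.univ (fun j => if j = i then |sg p (x j)| * w p (x j)
        else w p (x j)) (Finset.mem_univ i)]
    rw [if_pos rfl, mul_assoc]
    congr 2
    refine Finset.prod_congr rfl (fun j hj => ?_)
    rw [if_neg (Finset.ne_of_mem_erase hj)]
  simp_rw [h]
  refine Integrable.fintype_prod (𝕜 := ℝ) (μ := fun _ => (volume : Measure ℝ)) (f := fun j (y : ℝ) =>
    if j = i then |sg p y| * w p y else w p y) (fun j => ?_)
  by_cases hj : j = i
  · simp only [hj, if_true]
    refine Integrable.mono' (integrable_abs_rpow_mul_w (p := p) (s := p - 1) (by linarith)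
      (by linarith)) ?_ ?_
    · exact (((measurable_sg p).norm).mul (measurable_w p)).aestronglyMeasurable
    · refine Filter.Eventually.of_forall fun y => ?_
      rw [norm_mul, Real.norm_of_nonneg (w_pos p y).le, Real.norm_eq_abs, abs_abs]
      exact mul_le_mul_of_nonneg_right (sg_abs_le p y) (w_pos p y).le
  · simp only [hj, if_false]
    exact integrable_w (by linarith)

lemma integrable_S_W (hp : 1 < p) {n : ℕ} (u : Fin n → ℝ) :
    Integrable (fun x : Fin n → ℝ => |S p u x| * W p x) := by
  have h : Integrable (fun x : Fin n → ℝ => ∑ i, |u i| * (|sg p (x i)| * W p x)) :=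
    integrable_finsetSum _ (fun i _ => (integrable_sg_W hp i).const_mul _)
  refine Integrable.mono' h (((measurable_S p u).norm).mul
    (measurable_W p n)).aestronglyMeasurable ?_
  refine Filter.Eventually.of_forall fun x => ?_
  rw [norm_mul, Real.norm_of_nonneg (W_pos p x).le, Real.norm_eq_abs, abs_abs]
  calc |S p u x| * W p x ≤ (∑ i, |u i| * |sg p (x i)|) * W p x := by
        refine mul_le_mul_of_nonneg_right ?_ (W_pos p x).le
        unfold S
        refine (Finset.abs_sum_le_sum_abs _ _).trans (Finset.sum_le_sum fun i _ => ?_)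
        rw [abs_mul]
    _ = _ := by
        rw [Finset.sum_mul]
        exact Finset.sum_congr rfl fun i _ => by ring

lemma integral_cos_S (hp : 1 < p) {n : ℕ} (u : Fin n → ℝ) (t : ℝ) :
    ∫ x : Fin n → ℝ, Real.cos (t * S p u x) * W p x = ∏ i, A p (t * u i) := by
  have hi : Integrable (fun x : Fin n → ℝ =>
      Complex.exp (Complex.I * ((t * S p u x : ℝ) : ℂ)) * ((W p x : ℝ) : ℂ)) := by
    refine Integrable.mono' (integrable_W hp n) ?_ ?_
    · refine Measurable.aestronglyMeasurable ?_
      refine Measurable.mul ?_ ?_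
      · exact Complex.measurable_exp.comp
          ((Complex.measurable_ofReal.comp ((measurable_S p u).const_mul t)).const_mul _)
      · exact Complex.measurable_ofReal.comp (measurable_W p n)
    · refine Filter.Eventually.of_forall fun x => ?_
      rw [norm_mul, mul_comm Complex.I, Complex.norm_exp_ofReal_mul_I, one_mul,
        Complex.norm_real, Real.norm_of_nonneg (W_pos p x).le]
  have h1 : ∫ x : Fin n → ℝ, Complex.exp (Complex.I * ((t * S p u x : ℝ) : ℂ)) *
      ((W p x : ℝ) : ℂ) = ∏ i, ((A p (t * u i) : ℝ) : ℂ) := by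
    have h2 : ∀ x : Fin n → ℝ, Complex.exp (Complex.I * ((t * S p u x : ℝ) : ℂ)) *
      ((W p x : ℝ) : ℂ) = ∏ i, (fun y : ℝ => Complex.exp (Complex.I *
        (((t * u i) * sg p y : ℝ) : ℂ)) * ((w p y : ℝ) : ℂ)) (x i) := by
      intro x
      rw [W_eq]
      simp only
      rw [Finset.prod_mul_distrib, ← Complex.exp_sum, Complex.ofReal_prod]
      congr 2
      rw [← Finset.mul_sum, ← Complex.ofReal_sum]
      congr 2
      unfold S
      rw [Finset.mul_sum]
      exact Finset.sum_congr rfl fun i _ => by ring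
    rw [integral_congr_ae (Filter.Eventually.of_forall h2)]
    rw [integral_fintype_prod_volume_eq_prod (𝕜 := ℂ) (fun i (y : ℝ) => Complex.exp (Complex.I *
        (((t * u i) * sg p y : ℝ) : ℂ)) * ((w p y : ℝ) : ℂ))]
    exact Finset.prod_congr rfl (fun i _ => char_one hp (t * u i))
  have := integral_re hi (𝕜 := ℂ)
  simp only [RCLike.re_to_complex] at this
  rw [h1, ← Complex.ofReal_prod, Complex.ofReal_re] at this
  rw [← this]
  refine integral_congr_ae (Filter.Eventually.of_forall fun x => ?_)
  simp only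
  rw [mul_comm Complex.I, Complex.re_mul_ofReal, Complex.exp_ofReal_mul_I_re]

lemma integrable_cos_S (hp : 1 < p) {n : ℕ} (u : Fin n → ℝ) (t : ℝ) :
    Integrable (fun x : Fin n → ℝ => Real.cos (t * S p u x) * W p x) := by
  refine Integrable.mono' (integrable_W hp n) ?_ ?_
  · exact ((Real.measurable_cos.comp ((measurable_S p u).const_mul t)).mul
      (measurable_W p n)).aestronglyMeasurable
  · refine Filter.Eventually.of_forall fun x => ?_
    rw [norm_mul, Real.norm_of_nonneg (W_pos p x).le]
    have := Real.abs_cos_le_one (t * S p u x)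
    calc _ ≤ 1 * W p x := mul_le_mul_of_nonneg_right this (W_pos p x).le
      _ = _ := one_mul _

/-- Packet D. -/
theorem pktD : PktD := by
  intro p hp _ n
  refine ⟨A p 0 ^ n / c0, div_pos (pow_pos (A_zero_pos hp) n) c0_pos, fun u => ?_⟩
  have hc := c0_pos
  -- Fubini
  let f : (Fin n → ℝ) → ℝ → ℝ := fun x t => (1 - Real.cos (t * S p u x)) / t ^ 2 * W p x
  have hfm : Measurable (Function.uncurry f) := by
    have h1 : Measurable fun z : (Fin n → ℝ) × ℝ => S p u z.1 := (measurable_S p u).comp measurable_fst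
    have h2 : Measurable fun z : (Fin n → ℝ) × ℝ => W p z.1 :=
      (measurable_W p n).comp measurable_fst
    have h3 : Measurable fun z : (Fin n → ℝ) × ℝ => Real.cos (z.2 * S p u z.1) :=
      Real.measurable_cos.comp (measurable_snd.mul h1)
    exact ((measurable_const.sub h3).div (measurable_snd.pow_const 2)).mul h2
  have hinner : ∀ x, ∫ t in Ioi (0 : ℝ), f x t = c0 * (|S p u x| * W p x) := by
    intro x
    simp only [f]
    rw [integral_mul_const, integral_scaled]; ring
  have hint : Integrable (Function.uncurry f) (volume.prod (volume.restrict (Ioi 0))) := by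
    rw [integrable_prod_iff hfm.aestronglyMeasurable]
    constructor
    · refine Filter.Eventually.of_forall fun x => ?_
      exact (integrableOn_scaled (S p u x)).mul_const (W p x)
    · have : ∀ x, ∫ t in Ioi (0 : ℝ), ‖Function.uncurry f (x, t)‖ = c0 * (|S p u x| * W p x) := by
        intro x
        rw [← hinner x]
        refine integral_congr_ae (Filter.Eventually.of_forall fun t => ?_)
        simp only [Function.uncurry]
        rw [Real.norm_of_nonneg]
        refine mul_nonneg (div_nonneg ?_ (sq_nonneg t)) (W_pos p x).le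
        linarith [Real.cos_le_one (t * S p u x)]
      simp_rw [this]
      exact (integrable_S_W hp u).const_mul c0
  have hswap := integral_integral_swap hint
  have hJ : ∫ x, ∫ t in Ioi (0 : ℝ), f x t = c0 * J p u := by
    simp_rw [hinner]
    rw [integral_const_mul]
    rfl
  have hR : ∀ t : ℝ, ∫ x, f x t =
      A p 0 ^ n * ((1 - ∏ i, phi (p / (p - 1)) (u i * t)) / t ^ 2) := by
    intro t
    have e1 : ∀ x, f x t = (1 / t ^ 2) * (W p x - Real.cos (t * S p u x) * W p x) := by
      intro x; simp only [f]; ring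
    simp_rw [e1]
    rw [integral_const_mul, integral_sub (integrable_W hp n) (integrable_cos_S hp u t),
      integral_W p, integral_cos_S hp]
    have e2 : ∏ i, A p (t * u i) = A p 0 ^ n * ∏ i, phi (p / (p - 1)) (u i * t) := by
      have : ∀ i, A p (t * u i) = A p 0 * phi (p / (p - 1)) (u i * t) := fun i => by
        rw [A_eq_phi hp, mul_comm t]
      simp_rw [this]
      rw [Finset.prod_mul_distrib]; simp
    rw [e2]; ring
  rw [hJ] at hswap
  simp_rw [hR] at hswap
  rw [integral_const_mul] at hswap
  field_simp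
  linarith

end

end Pool.Agent.Helper13.Proj
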